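import Mathlib

namespace Pool.Agent.Results.MP_6c2242_co.Switched

/-- `(V, 𝓑)` is a `2-(v,k,1)` design with `v = |V|`. -/
def IsSteiner {V : Type} [Fintype V] (k : ℕ) (𝓑 : Finset (Finset V)) : Prop :=
  2 ≤ k ∧ k ≤ Fintype.card V ∧ (∀ B ∈ 𝓑, B.card = k) ∧
    ∀ x y : V, x ≠ y → ∃! B : Finset V, B ∈ 𝓑 ∧ x ∈ B ∧ y ∈ B

/-- Strictly `G`-additive: a bijection `f : V → G` makes every block zero-sum. -/
def StrictlyAdditive (G : Type) [AddCommGroup G] {V : Type} (𝓑 : Finset (Finset V)) : Prop :=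
  ∃ f : V ≃ G, ∀ B ∈ 𝓑, ∑ b ∈ B, f b = 0

/-- `G`-regular: for some bijection `f : V → G`, `f(B) + g ∈ f(𝓑)` for all blocks `B` and `g`. -/
def Regular (G : Type) [AddCommGroup G] [DecidableEq G] {V : Type}
    (𝓑 : Finset (Finset V)) : Prop :=
  ∃ f : V ≃ G, ∀ B ∈ 𝓑, ∀ g : G, ∃ B' ∈ 𝓑, B'.image f = (B.image f).image (fun y => y + g)

def th (a b : ℕ) : ℕ :=
  Nat.shiftRight (bif Nat.blt a 16 && Nat.blt b 16 then 11357291768416099256972357760 else
    13153389583868813439888820855607030182925494708459527611837938568912989508787256383883920871272880879049742326444160)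
    (Nat.mul 6 (Nat.xor a b))

def n3 (a b : ℕ) : ℕ := Nat.mod (Nat.xor a (th a b)) 64
def n4 (a b : ℕ) : ℕ := Nat.mod (Nat.xor b (th a b)) 64

def c3 (a b : Fin 64) : Fin 64 := ⟨n3 a.val b.val, Nat.mod_lt _ (by norm_num)⟩
def c4 (a b : Fin 64) : Fin 64 := ⟨n4 a.val b.val, Nat.mod_lt _ (by norm_num)⟩

def mask (a b : ℕ) : ℕ :=
  Nat.lor (Nat.lor (Nat.pow 2 a) (Nat.pow 2 b)) (Nat.lor (Nat.pow 2 (n3 a b)) (Nat.pow 2 (n4 a b)))

theorem testBit_mask (a b z : ℕ) : (mask a b).testBit z = true ↔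
    z = a ∨ z = b ∨ z = n3 a b ∨ z = n4 a b := by
  change ((2 ^ a ||| 2 ^ b) ||| (2 ^ n3 a b ||| 2 ^ n4 a b)).testBit z = true ↔ _
  simp only [Nat.testBit_or, Nat.testBit_two_pow, Bool.or_eq_true, decide_eq_true_eq]
  omega

def blk (a b : Fin 64) : Finset (Fin 64) := {a, b, c3 a b, c4 a b}

def blocks : Finset (Finset (Fin 64)) :=
  (Finset.univ : Finset (Fin 64)).offDiag.image (fun p => blk p.1 p.2)

def on (x y z : Fin 64) : Bool := (mask x.val y.val).testBit z.val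

theorem mem_blk (x y z : Fin 64) : z ∈ blk x y ↔ on x y z = true := by
  simp [blk, on, testBit_mask, c3, c4, Fin.ext_iff]

def el (a b : Fin 64) : List (Fin 64) := [a, b, c3 a b, c4 a b]
def elN (a b : ℕ) : List ℕ := [a, b, n3 a b, n4 a b]

theorem mem_el (x y z : Fin 64) : z ∈ blk x y ↔ z ∈ el x y := by
  simp [blk, el]

theorem mem_elN (x y z : Fin 64) : z ∈ blk x y ↔ z.val ∈ elN x.val y.val := by
  simp [blk, elN, c3, c4, Fin.ext_iff]

theorem F1 : (List.range 64).all (fun a => (List.range 64).all (fun b => Nat.beq a b ||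
    (elN a b).all (fun x => (elN a b).all (fun y => Nat.beq x y ||
      Nat.beq (mask x y) (mask a b))))) = true := by
  decide +kernel

theorem F2 : ∀ a b : Fin 64, a ≠ b → a ≠ c3 a b ∧ a ≠ c4 a b ∧ b ≠ c3 a b ∧ b ≠ c4 a b ∧
    c3 a b ≠ c4 a b ∧ a.val ^^^ b.val = (c3 a b).val ^^^ (c4 a b).val := by
  decide +kernel

theorem card_blk {a b : Fin 64} (h : a ≠ b) : (blk a b).card = 4 := by
  obtain ⟨h1, h2, h3, h4, h5, -⟩ := F2 a b h
  rw [blk, Finset.card_insert_of_notMem (by simp [h, h1, h2]),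
    Finset.card_insert_of_notMem (by simp [h3, h4]), Finset.card_pair h5]

theorem blk_eq {a b x y : Fin 64} (h : a ≠ b) (hx : x ∈ blk a b) (hy : y ∈ blk a b)
    (hxy : x ≠ y) : blk a b = blk x y := by
  have h1 := F1
  simp only [List.all_eq_true, Bool.or_eq_true, Nat.beq_eq, List.mem_range] at h1
  rw [mem_elN] at hx hy
  have h2 := (h1 a a.2 b b.2).resolve_left (fun e => h (Fin.ext e))
  have h3 := (h2 _ hx _ hy).resolve_left (fun e => hxy (Fin.ext e))
  ext z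
  rw [mem_blk, mem_blk, on, on, h3]

theorem mem_blocks {B : Finset (Fin 64)} : B ∈ blocks ↔ ∃ a b, a ≠ b ∧ blk a b = B := by
  simp [blocks]

def col (p q r : Fin 64) : Prop := ∃ B ∈ blocks, p ∈ B ∧ q ∈ B ∧ r ∈ B

theorem col_iff {p q r : Fin 64} (h : p ≠ q) : col p q r ↔ on p q r = true := by
  constructor
  · rintro ⟨B, hB, h1, h2, h3⟩
    obtain ⟨a, b, hab, rfl⟩ := mem_blocks.mp hB
    rw [blk_eq hab h1 h2 h] at h3
    exact (mem_blk _ _ _).mp h3
  · intro h3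
    exact ⟨blk p q, mem_blocks.mpr ⟨p, q, h, rfl⟩, by simp [blk], by simp [blk],
      (mem_blk _ _ _).mpr h3⟩

def Q (x : Fin 64) : Prop := ∀ a c, a ≠ x → c ≠ x → ∃ a' b c' d e,
  col x a a' ∧ col x a b ∧ col x c c' ∧ col x c d ∧ a' ≠ x ∧ b ≠ x ∧ c' ≠ x ∧ d ≠ x ∧
    a' ≠ b ∧ c' ≠ d ∧ a' ≠ c' ∧ b ≠ d ∧ col a' c' e ∧ col b d e

def tl (x a : Fin 64) : List (Fin 64) := [a, c3 x a, c4 x a]

def tlN (x a : ℕ) : List ℕ := [a, n3 x a, n4 x a]

theorem tl_of {x a : Fin 64} {z : ℕ} (h : z ∈ tlN x.val a.val) : ∃ w ∈ tl x a, w.val = z := by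
  simp only [tlN, List.mem_cons, List.not_mem_nil, or_false] at h
  rcases h with rfl | rfl | rfl
  · exact ⟨a, by simp [tl], rfl⟩
  · exact ⟨c3 x a, by simp [tl], rfl⟩
  · exact ⟨c4 x a, by simp [tl], rfl⟩

theorem F3 : (List.range 64).all (fun a => (List.range 64).all (fun c =>
    Nat.beq a 16 || (Nat.beq c 16 ||
    (tlN 16 a).any (fun a' => (tlN 16 a).any (fun b => !Nat.beq a' b &&
      (tlN 16 c).any (fun c' => !Nat.beq a' c' && (tlN 16 c).any (fun d =>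
        !Nat.beq c' d && (!Nat.beq b d &&
          !Nat.beq (Nat.land (mask a' c') (mask b d)) 0)))))))) = true := by
  decide +kernel

theorem nb {a b : ℕ} : (!Nat.beq a b) = true ↔ a ≠ b := by
  rw [Bool.not_eq_true', Bool.eq_false_iff, Ne, Nat.beq_eq]

theorem tl_col {x a z : Fin 64} (h : a ≠ x) (hz : z ∈ tl x a) : col x a z ∧ z ≠ x := by
  obtain ⟨h1, h2, -⟩ := F2 x a h.symm
  rw [col_iff h.symm, ← mem_blk]
  simp only [tl, List.mem_cons, List.not_mem_nil, or_false] at hz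
  rcases hz with rfl | rfl | rfl
  · exact ⟨by simp [blk], h⟩
  · exact ⟨by simp [blk], h1.symm⟩
  · exact ⟨by simp [blk], h2.symm⟩

theorem Q16 : Q 16 := by
  intro a c ha hc
  have h := F3
  simp only [List.all_eq_true, List.any_eq_true, Bool.and_eq_true, Bool.or_eq_true, nb,
    Nat.beq_eq, List.mem_range] at h
  obtain ⟨a', h1, b, h2, h3, c', h4, h5, d, h6, h7, h8, h9⟩ :=
    ((h a a.2 c c.2).resolve_left (fun e => ha (Fin.ext e))).resolve_left
      (fun e => hc (Fin.ext e))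
  obtain ⟨a', g1, rfl⟩ := tl_of (x := 16) h1
  obtain ⟨b, g2, rfl⟩ := tl_of (x := 16) h2
  obtain ⟨c', g4, rfl⟩ := tl_of (x := 16) h4
  obtain ⟨d, g6, rfl⟩ := tl_of (x := 16) h6
  replace h3 : a' ≠ b := fun e => h3 (by rw [e])
  replace h5 : a' ≠ c' := fun e => h5 (by rw [e])
  replace h7 : c' ≠ d := fun e => h7 (by rw [e])
  replace h8 : b ≠ d := fun e => h8 (by rw [e])
  obtain ⟨i, hi⟩ := Nat.exists_testBit_of_ne_zero h9
  change (mask a'.val c'.val &&& mask b.val d.val).testBit i = true at hi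
  rw [Nat.testBit_and, Bool.and_eq_true] at hi
  have hi64 : i < 64 := by
    rcases (testBit_mask _ _ _).mp hi.1 with e | e | e | e
    · exact e ▸ a'.2
    · exact e ▸ c'.2
    · exact e ▸ (c3 a' c').2
    · exact e ▸ (c4 a' c').2
  exact ⟨a', b, c', d, ⟨i, hi64⟩, (tl_col ha g1).1, (tl_col ha g2).1, (tl_col hc g4).1,
    (tl_col hc g6).1, (tl_col ha g1).2, (tl_col ha g2).2, (tl_col hc g4).2, (tl_col hc g6).2,
    h3, h7, h5, h8, (col_iff h5).mpr hi.1, (col_iff h8).mpr hi.2⟩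

theorem F4 : ∀ a' ∈ el 0 5, ∀ b ∈ el 0 5, ∀ c' ∈ el 0 16, ∀ d ∈ el 0 16, a' ≠ 0 → b ≠ 0 →
    c' ≠ 0 → d ≠ 0 → a' ≠ b → c' ≠ d → ∀ e ∈ el a' c', on b d e = false := by
  decide +kernel

theorem notQ0 : ¬ Q 0 := by
  intro h
  obtain ⟨a', b, c', d, e, h1, h2, h3, h4, h5, h6, h7, h8, h9, h10, h11, h12, h13, h14⟩ :=
    h 5 16 (by decide) (by decide)
  rw [col_iff (by decide), ← mem_blk, mem_el] at h1 h2 h3 h4
  rw [col_iff h11, ← mem_blk, mem_el] at h13
  rw [col_iff h12] at h14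
  rw [F4 a' h1 b h2 c' h3 d h4 h5 h6 h7 h8 h9 h10 e h13] at h14
  exact Bool.false_ne_true h14

def bits (x : ℕ) : Fin 6 → ZMod 2 := fun i => bif x.testBit i.val then 1 else 0

theorem bits_xor (x y : ℕ) : bits (x ^^^ y) = bits x + bits y := by
  funext i
  simp only [bits, Nat.testBit_xor, Pi.add_apply]
  cases x.testBit i.val <;> cases y.testBit i.val <;> decide

theorem bits_bij : Function.Bijective (fun x : Fin 64 => bits x.val) := by
  rw [Fintype.bijective_iff_injective_and_card]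
  refine ⟨?_, by simp⟩
  have : ∀ x y : Fin 64, (∀ i : Fin 6, bits x.val i = bits y.val i) → x = y := by decide +kernel
  intro x y h
  exact this x y (fun i => congrFun h i)

theorem result : ∃ (G : Type) (_ : AddCommGroup G) (_ : Fintype G) (_ : DecidableEq G)
    (V : Type) (_ : Fintype V) (k : ℕ) (𝓑 : Finset (Finset V)),
    IsSteiner k 𝓑 ∧ StrictlyAdditive G 𝓑 ∧ ¬ Regular G 𝓑 := by
  refine ⟨Fin 6 → ZMod 2, inferInstance, inferInstance, inferInstance, Fin 64, inferInstance, 4,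
    blocks, ⟨by norm_num, by simp, ?_, ?_⟩, ⟨Equiv.ofBijective _ bits_bij, ?_⟩, ?_⟩
  · intro B hB
    obtain ⟨a, b, hab, rfl⟩ := mem_blocks.mp hB
    exact card_blk hab
  · intro x y hxy
    refine ⟨blk x y, ⟨mem_blocks.mpr ⟨x, y, hxy, rfl⟩, by simp [blk], by simp [blk]⟩, ?_⟩
    rintro B ⟨hB, hx, hy⟩
    obtain ⟨a, b, hab, rfl⟩ := mem_blocks.mp hB
    exact blk_eq hab hx hy hxy
  · intro B hB
    obtain ⟨a, b, h, rfl⟩ := mem_blocks.mp hB
    obtain ⟨h1, h2, h3, h4, h5, h6⟩ := F2 a b h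
    rw [blk, Finset.sum_insert (by simp [h, h1, h2]), Finset.sum_insert (by simp [h3, h4]),
      Finset.sum_pair h5]
    simp only [Equiv.ofBijective_apply]
    rw [← add_assoc, ← bits_xor, ← bits_xor, ← h6, ← bits_xor, Nat.xor_self]
    funext i
    simp [bits]
  · rintro ⟨f, hf⟩
    let g := f 0 - f 16
    let φ : Fin 64 ≃ Fin 64 := (f.trans (Equiv.addRight g)).trans f.symm
    have hφ : ∀ v, f (φ v) = f v + g := fun v => by simp [φ]
    have h0 : φ 16 = 0 := f.injective (by rw [hφ]; simp [g])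
    have hc : ∀ p q r, col p q r → col (φ p) (φ q) (φ r) := by
      rintro p q r ⟨B, hB, hp, hq, hr⟩
      obtain ⟨B', hB', e⟩ := hf B hB g
      have key : ∀ v ∈ B, φ v ∈ B' := by
        intro v hv
        have : f (φ v) ∈ B'.image f := by
          rw [e, hφ]
          exact Finset.mem_image.mpr ⟨f v, Finset.mem_image_of_mem _ hv, rfl⟩
        obtain ⟨w, hw, hw'⟩ := Finset.mem_image.mp this
        rwa [← f.injective hw']
      exact ⟨B', hB', key p hp, key q hq, key r hr⟩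
    apply notQ0
    intro a c ha hc'
    obtain ⟨a, rfl⟩ := φ.surjective a
    obtain ⟨c, rfl⟩ := φ.surjective c
    rw [← h0] at ha hc' ⊢
    obtain ⟨a', b, c', d, e, h1, h2, h3, h4, h5, h6, h7, h8, h9, h10, h11, h12, h13, h14⟩ :=
      Q16 a c (fun h => ha (by rw [h])) (fun h => hc' (by rw [h]))
    exact ⟨φ a', φ b, φ c', φ d, φ e, hc _ _ _ h1, hc _ _ _ h2, hc _ _ _ h3, hc _ _ _ h4,
      φ.injective.ne h5, φ.injective.ne h6, φ.injective.ne h7, φ.injective.ne h8,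
      φ.injective.ne h9, φ.injective.ne h10, φ.injective.ne h11, φ.injective.ne h12,
      hc _ _ _ h13, hc _ _ _ h14⟩

end Pool.Agent.Results.MP_6c2242_co.Switched
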